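import Pool.Agent.Helper49.Petrie.Assembly

/-!
# MP_a84b8e_gt: Petrie's conjecture for torus actions with few fixed components

A smooth almost effective action of `T^k` on a homotopy `CP^n` gives an element of
`TorusAction k n` (see `Pool.Agent.Helper49.Petrie.Defs` for the fields and the theorems they come
from), whose number of different weights `a i` is the number of components of the fixed point set
of `T^k`. The theorem: if `k ≥ 2` and this number is less than `(k + 3).choose 3` and less than
`2 * (k + 2).choose 3`, then the Pontrjagin classes are those of `CP^n`. In particular this holds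
for `k ≥ 3` as soon as `n + 1 < (k + 3).choose 3`, because there are at most `n + 1` components.

Proof idea. The defect form `D_i(v) = ∑_l ⟨a_l - a_i, v⟩^2 - ∑_j ⟨w_ij, v⟩^2` is nonnegative and
splits as a sum over special directions; a line through `a_i` in a special direction contains at
least four of the points `a_l`. If some `v ≠ 0` is in the kernel of all `D_i`, the circle `v` has
the tangent weights of a linear action and all Dirac indices `∫ e^{cx/2} Â(M)`, `|c| < n + 1`,
vanish, which determines `p(M)`. Otherwise the kernel of every `D_i` has dimension at most one (an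
argument for rank two tori), and the polynomial method gives many points `a_l`.
-/

namespace Pool.Agent.Results.MP_a84b8e_gt.TorusFewComponents

open Finset Pool.Agent.Helper49.Petrie

theorem card_le {k n : ℕ} (X : TorusAction k n) : (univ.image X.a).card ≤ n + 1 := by
  have h := card_image_le (s := univ) (f := X.a)
  simpa using h

theorem choose_le (k : ℕ) (hk : 3 ≤ k) : (k + 3).choose 3 ≤ 2 * (k + 2).choose 3 := by
  have h1 : (k + 3).choose 3 * (k) = (k + 2).choose 3 * (k + 3) := by
    have h := Nat.choose_mul_succ_eq (k + 2) 3
    have h2 : k + 2 + 1 - 3 = k := by omega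
    rw [h2] at h
    rw [← h]
  have h2 : (k + 2).choose 3 * (k + 3) ≤ (2 * (k + 2).choose 3) * k := by
    have : k + 3 ≤ 2 * k := by omega
    calc (k + 2).choose 3 * (k + 3) ≤ (k + 2).choose 3 * (2 * k) := Nat.mul_le_mul_left _ this
      _ = (2 * (k + 2).choose 3) * k := by ring
  rw [← h1] at h2
  exact Nat.le_of_mul_le_mul_right h2 (by omega)

/-- For the data of an action of `T^k`, `k ≥ 2`, with fewer than `(k + 3).choose 3` and fewer than
`2 * (k + 2).choose 3` fixed components, `p(M) = (1 + x^2)^{n+1}`; in particular for `k ≥ 3` and
`n + 1 < (k + 3).choose 3`. -/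
theorem result :
    (∀ (k n : ℕ) (X : TorusAction k n), 2 ≤ k →
      (univ.image X.a).card < (k + 3).choose 3 →
      (univ.image X.a).card < 2 * (k + 2).choose 3 →
      ∀ s : ℕ, 2 * s ≤ n → X.p s = (n + 1).choose s) ∧
    (∀ (k n : ℕ) (X : TorusAction k n), 3 ≤ k → n + 1 < (k + 3).choose 3 →
      ∀ s : ℕ, 2 * s ≤ n → X.p s = (n + 1).choose s) := by
  refine ⟨fun k n X hk h1 h2 s hs => H.main hk X h1 h2 s hs, fun k n X hk h s hs => ?_⟩
  have h1 := card_le X
  have h2 := choose_le k hk
  exact H.main (by omega) X (by omega) (by omega) s hs

end Pool.Agent.Results.MP_a84b8e_gt.TorusFewComponents
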