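import Pool.Agent.Helper40.Petrie.Main

/-!
# MP_a84b8e_gt: Petrie's conjecture for actions of tori of rank two, low dimensions and rigidity

A smooth almost effective action of `T^k` on a homotopy `CP^n` gives an element of
`LiuAction k n`: the data of `TorusAction k n` (see `Pool.Agent.Helper49.Petrie.Defs`) with two
more published facts (see `Pool.Agent.Helper40.Petrie.Defs`). For `k ≥ 2`:

* if the first Pontrjagin class is standard, all Pontrjagin classes are standard;
* `-(n + 1) < 2 p_1 ≤ 3 (n + 1)`;
* for `n ≤ 15` all Pontrjagin classes are standard.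

Proof idea. Let `p_1 = n + 1`. As `k ≥ 2`, there is a circle in the torus for which the form
`(n + 1) X ^ 2 + β X + γ` of the equivariant first Pontrjagin class is positive definite. The
vanishing theorem of Liu for the sums of `n + 1` line bundles `L ⊗ t ^ (c j)` with
`2 ∑ c_j = β` and `∑ c_j ^ 2 < γ` gives so many linear relations between the equivariant indices
`I_c` of the Dirac operators with canonical class `c x`, that `I_c = 0` for `|c| < n + 1`, and
this determines `p(M)`. The inequality for `p_1`: restrict to a torus of rank two and sum, over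
all fixed points `i`, the values at the vector perpendicular to (the centred) `a_i` of the
nonnegative forms `D_i(v) = ∑_l ⟨a_l - a_i, v⟩ ^ 2 - ∑_j ⟨w_ij, v⟩ ^ 2`. Since `24` divides
`n + 1 - p_1`, `p_1` is standard for `n ≤ 15`.
-/

namespace Pool.Agent.Results.MP_a84b8e_gt.TorusRigidity

open Pool.Agent.Helper49.Petrie Pool.Agent.Helper40.Petrie

/-- For the data of an action of `T^k`, `k ≥ 2`, on a homotopy `CP^n`: if `p_1(M) = (n + 1) x^2`
then `p(M) = (1 + x^2)^{n+1}`; always `-(n + 1) < 2 p_1 ≤ 3 (n + 1)`; and for `n ≤ 15` the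
conclusion `p(M) = (1 + x^2)^{n+1}` holds without further assumption. -/
theorem result :
    (∀ (k n : ℕ) (X : LiuAction k n), 2 ≤ k → X.p 1 = n + 1 →
      ∀ s : ℕ, 2 * s ≤ n → X.p s = (n + 1).choose s) ∧
    (∀ (k n : ℕ) (X : TorusAction k n), 2 ≤ k →
      -((n : ℤ) + 1) < 2 * X.p 1 ∧ 2 * X.p 1 ≤ 3 * ((n : ℤ) + 1)) ∧
    (∀ (k n : ℕ) (X : LiuAction k n), 2 ≤ k → n ≤ 15 →
      ∀ s : ℕ, 2 * s ≤ n → X.p s = (n + 1).choose s) :=
  ⟨fun _ _ X hk hp s hs => std_of_p1 hk X hp s hs,
    fun _ _ X hk => p1_bounds hk X,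
    fun _ _ X hk hn s hs => std_low hk X hn s hs⟩

end Pool.Agent.Results.MP_a84b8e_gt.TorusRigidity
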